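import Mathlib

namespace Pool.Agent.Results.MP_42b70f_co.FourteenVertices

variable {V : Type*}

/-- The perfect matching `M` of `G` is sparsely joined: for any two distinct edges `uv`, `xy` of
`M`, at most one of the four pairs `ux`, `uy`, `vx`, `vy` is an edge of `G`. -/
def SparselyJoined (G : SimpleGraph V) (M : G.Subgraph) : Prop :=
  ∀ u v x y : V, M.Adj u v → M.Adj x y → s(u, v) ≠ s(x, y) →
    {p : Sym2 V | p ∈ G.edgeSet ∧ (p = s(u, x) ∨ p = s(u, y) ∨ p = s(v, x) ∨ p = s(v, y))}.encard ≤ 1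

/-- `v₁ v₂ v₃ v₄ v₁` is a 4-cycle of `G` on four distinct vertices. -/
def IsFourCycle (G : SimpleGraph V) (v₁ v₂ v₃ v₄ : V) : Prop :=
  [v₁, v₂, v₃, v₄].Nodup ∧ G.Adj v₁ v₂ ∧ G.Adj v₂ v₃ ∧ G.Adj v₃ v₄ ∧ G.Adj v₄ v₁

/-- The 4-cycle `v₁ v₂ v₃ v₄ v₁` is caught by `A`: one of its opposite pairs `{v₁, v₃}`,
`{v₂, v₄}` lies entirely inside `A` or entirely outside `A`. -/
def Caught (A : Finset V) (v₁ v₂ v₃ v₄ : V) : Prop :=
  ((v₁ ∈ A ∧ v₃ ∈ A) ∨ (v₁ ∉ A ∧ v₃ ∉ A)) ∨ ((v₂ ∈ A ∧ v₄ ∈ A) ∨ (v₂ ∉ A ∧ v₄ ∉ A))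

/-- The adjacency matrix of the example: bit `14 * i + j`. -/
def code : ℕ := 31517542772586369114436957395722513846868596660974211656002

/-- The example. -/
def G : SimpleGraph (Fin 14) where
  Adj i j := code.testBit (14 * i.val + j.val) = true
  symm := ⟨by decide⟩
  loopless := ⟨by decide⟩

instance : DecidableRel G.Adj := fun i j =>
  inferInstanceAs (Decidable (code.testBit (14 * i.val + j.val) = true))

/-- The perfect matching `{0,1}, {2,3}, …, {12,13}`. -/
def M : G.Subgraph where
  verts := Set.univ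
  Adj i j := i ≠ j ∧ i.val / 2 = j.val / 2
  adj_sub := by
    intro i j h
    revert i j
    decide
  edge_vert := fun _ => Set.mem_univ _
  symm := ⟨fun i j h => ⟨h.1.symm, h.2.symm⟩⟩

/-- The 4-cycles whose smallest vertex is `k`. -/
def cyc : ℕ → List (ℕ × ℕ × ℕ × ℕ)
  | 0 => [(0, 1, 2, 8), (0, 1, 2, 13), (0, 6, 7, 11), (0, 6, 9, 8), (0, 8, 2, 13), (0, 8, 4, 11),
      (0, 8, 4, 13), (0, 11, 4, 13), (0, 11, 10, 13)]
  | 1 => [(1, 2, 3, 5)]
  | 2 => [(2, 3, 10, 13), (2, 8, 4, 13)]
  | 3 => [(3, 5, 7, 6), (3, 6, 9, 10)]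
  | 4 => [(4, 5, 7, 11), (4, 11, 10, 13)]
  | 6 => [(6, 7, 12, 9)]
  | 9 => [(9, 10, 13, 12)]
  | _ => []

/-- the cycle `c` is not caught by the set coded by `m` -/
def bad (m : ℕ) (c : ℕ × ℕ × ℕ × ℕ) : Bool :=
  (m.testBit c.1 != m.testBit c.2.2.1) && (m.testBit c.2.1 != m.testBit c.2.2.2)

/-- search tree: the vertices `k, …, 13` have been decided -/
def search : ℕ → ℕ → ℕ → Bool
  | 0, _, c => c != 7
  | k + 1, m, c =>
      ((cyc k).any (bad m) || search k m c) &&
      ((cyc k).any (bad (m ||| 2 ^ k)) || search k (m ||| 2 ^ k) (c + 1))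

lemma search_true : search 14 0 0 = true := by decide +kernel

/-- `c` is a 4-cycle with vertices `≥ k` -/
def okCyc (k : ℕ) (c : ℕ × ℕ × ℕ × ℕ) : Prop :=
  ∃ v₁ v₂ v₃ v₄ : Fin 14, c = (v₁.val, v₂.val, v₃.val, v₄.val) ∧
    IsFourCycle G v₁ v₂ v₃ v₄ ∧ k ≤ v₁.val ∧ k ≤ v₂.val ∧ k ≤ v₃.val ∧ k ≤ v₄.val

instance (v₁ v₂ v₃ v₄ : Fin 14) : Decidable (IsFourCycle G v₁ v₂ v₃ v₄) := by
  unfold IsFourCycle
  infer_instance

lemma cyc_ok (k : ℕ) (c : ℕ × ℕ × ℕ × ℕ) (hc : c ∈ cyc k) : okCyc k c := by
  have key : ∀ (a b c' d : Fin 14), IsFourCycle G a b c' d → k ≤ a.val → k ≤ b.val → k ≤ c'.val →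
      k ≤ d.val → okCyc k (a.val, b.val, c'.val, d.val) := fun a b c' d h h1 h2 h3 h4 =>
    ⟨a, b, c', d, rfl, h, h1, h2, h3, h4⟩
  match k, hc with
  | 0, hc =>
    simp only [cyc, List.mem_cons, List.not_mem_nil, or_false] at hc
    rcases hc with rfl | rfl | rfl | rfl | rfl | rfl | rfl | rfl | rfl
    · exact key 0 1 2 8 (by decide) (by decide) (by decide) (by decide) (by decide)
    · exact key 0 1 2 13 (by decide) (by decide) (by decide) (by decide) (by decide)
    · exact key 0 6 7 11 (by decide) (by decide) (by decide) (by decide) (by decide)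
    · exact key 0 6 9 8 (by decide) (by decide) (by decide) (by decide) (by decide)
    · exact key 0 8 2 13 (by decide) (by decide) (by decide) (by decide) (by decide)
    · exact key 0 8 4 11 (by decide) (by decide) (by decide) (by decide) (by decide)
    · exact key 0 8 4 13 (by decide) (by decide) (by decide) (by decide) (by decide)
    · exact key 0 11 4 13 (by decide) (by decide) (by decide) (by decide) (by decide)
    · exact key 0 11 10 13 (by decide) (by decide) (by decide) (by decide) (by decide)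
  | 1, hc =>
    simp only [cyc, List.mem_cons, List.not_mem_nil, or_false] at hc
    subst hc
    exact key 1 2 3 5 (by decide) (by decide) (by decide) (by decide) (by decide)
  | 2, hc =>
    simp only [cyc, List.mem_cons, List.not_mem_nil, or_false] at hc
    rcases hc with rfl | rfl
    · exact key 2 3 10 13 (by decide) (by decide) (by decide) (by decide) (by decide)
    · exact key 2 8 4 13 (by decide) (by decide) (by decide) (by decide) (by decide)
  | 3, hc =>
    simp only [cyc, List.mem_cons, List.not_mem_nil, or_false] at hc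
    rcases hc with rfl | rfl
    · exact key 3 5 7 6 (by decide) (by decide) (by decide) (by decide) (by decide)
    · exact key 3 6 9 10 (by decide) (by decide) (by decide) (by decide) (by decide)
  | 4, hc =>
    simp only [cyc, List.mem_cons, List.not_mem_nil, or_false] at hc
    rcases hc with rfl | rfl
    · exact key 4 5 7 11 (by decide) (by decide) (by decide) (by decide) (by decide)
    · exact key 4 11 10 13 (by decide) (by decide) (by decide) (by decide) (by decide)
  | 5, hc => simp [cyc] at hc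
  | 6, hc =>
    simp only [cyc, List.mem_cons, List.not_mem_nil, or_false] at hc
    subst hc
    exact key 6 7 12 9 (by decide) (by decide) (by decide) (by decide) (by decide)
  | 7, hc => simp [cyc] at hc
  | 8, hc => simp [cyc] at hc
  | 9, hc =>
    simp only [cyc, List.mem_cons, List.not_mem_nil, or_false] at hc
    subst hc
    exact key 9 10 13 12 (by decide) (by decide) (by decide) (by decide) (by decide)
  | n + 10, hc => simp [cyc] at hc

/-- soundness of the search -/
lemma search_sound (A : Finset (Fin 14)) : ∀ (k m c : ℕ), k ≤ 14 →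
    (∀ i : Fin 14, k ≤ i.val → (m.testBit i.val = true ↔ i ∈ A)) →
    (∀ i : ℕ, i < k → m.testBit i = false) →
    c = (A.filter (fun i => k ≤ i.val)).card → search k m c = true → A.card = 7 →
    ∃ v₁ v₂ v₃ v₄, IsFourCycle G v₁ v₂ v₃ v₄ ∧ ¬ Caught A v₁ v₂ v₃ v₄ := by
  -- a bad cycle in the search is an uncaught cycle
  have hbad : ∀ (k m : ℕ), (∀ i : Fin 14, k ≤ i.val → (m.testBit i.val = true ↔ i ∈ A)) →
      (cyc k).any (bad m) = true →
      ∃ v₁ v₂ v₃ v₄, IsFourCycle G v₁ v₂ v₃ v₄ ∧ ¬ Caught A v₁ v₂ v₃ v₄ := by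
    intro k m hm h
    rw [List.any_eq_true] at h
    obtain ⟨c, hc, hb⟩ := h
    obtain ⟨v₁, v₂, v₃, v₄, rfl, hcyc, h1, h2, h3, h4⟩ := cyc_ok k c hc
    refine ⟨v₁, v₂, v₃, v₄, hcyc, ?_⟩
    simp only [bad, Bool.and_eq_true, bne_iff_ne, ne_eq] at hb
    unfold Caught
    have e1 := hm v₁ h1
    have e2 := hm v₂ h2
    have e3 := hm v₃ h3
    have e4 := hm v₄ h4
    obtain ⟨hb1, hb2⟩ := hb
    rw [← e1, ← e2, ← e3, ← e4]
    revert hb1 hb2
    cases m.testBit v₁.val <;> cases m.testBit v₂.val <;> cases m.testBit v₃.val <;>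
      cases m.testBit v₄.val <;> simp
  intro k
  induction k with
  | zero =>
    intro m c _ _ _ hc hs hA
    have : (A.filter (fun i => 0 ≤ i.val)) = A := by simp
    rw [this] at hc
    simp only [search, bne_iff_ne, ne_eq] at hs
    exact absurd (hc.trans hA) hs
  | succ k ih =>
    intro m c hk hm hz hc hs hA
    simp only [search, Bool.and_eq_true, Bool.or_eq_true] at hs
    obtain ⟨hs1, hs2⟩ := hs
    have hklt : k < 14 := hk
    by_cases hkA : (⟨k, hklt⟩ : Fin 14) ∈ A
    · -- `k ∈ A`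
      have hm' : ∀ i : Fin 14, k ≤ i.val → ((m ||| 2 ^ k).testBit i.val = true ↔ i ∈ A) := by
        intro i hi
        rw [Nat.testBit_or, Nat.testBit_two_pow]
        rcases Nat.eq_or_lt_of_le hi with h | h
        · have : i = ⟨k, hklt⟩ := Fin.ext h.symm
          subst this
          simp [hkA]
        · have hne : k ≠ i.val := Nat.ne_of_lt h
          simp only [hne, decide_false, Bool.or_false]
          exact hm i h
      rcases hs2 with h | h
      · exact hbad k _ hm' h
      · refine ih _ _ (Nat.le_of_lt hklt) hm' ?_ ?_ h hA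
        · intro i hi
          rw [Nat.testBit_or, Nat.testBit_two_pow, hz i (Nat.lt_succ_of_lt hi)]
          simp [Nat.ne_of_gt hi]
        · rw [hc]
          have : A.filter (fun i => k ≤ i.val) =
              insert (⟨k, hklt⟩ : Fin 14) (A.filter (fun i => k + 1 ≤ i.val)) := by
            ext i
            simp only [Finset.mem_filter, Finset.mem_insert]
            constructor
            · rintro ⟨h1, h2⟩
              rcases Nat.eq_or_lt_of_le h2 with h3 | h3
              · exact Or.inl (Fin.ext h3.symm)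
              · exact Or.inr ⟨h1, h3⟩
            · rintro (rfl | ⟨h1, h2⟩)
              · exact ⟨hkA, le_rfl⟩
              · exact ⟨h1, Nat.le_of_succ_le h2⟩
          rw [this, Finset.card_insert_of_notMem (by simp)]
    · have hm' : ∀ i : Fin 14, k ≤ i.val → (m.testBit i.val = true ↔ i ∈ A) := by
        intro i hi
        rcases Nat.eq_or_lt_of_le hi with h | h
        · have : i = ⟨k, hklt⟩ := Fin.ext h.symm
          subst this
          have h0 := hz k (Nat.lt_succ_self k)
          simp [hkA, h0]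
        · exact hm i h
      rcases hs1 with h | h
      · exact hbad k _ hm' h
      · refine ih _ _ (Nat.le_of_lt hklt) hm' ?_ ?_ h hA
        · intro i hi
          exact hz i (Nat.lt_succ_of_lt hi)
        · rw [hc]
          congr 1
          ext i
          simp only [Finset.mem_filter]
          constructor
          · rintro ⟨h1, h2⟩
            exact ⟨h1, Nat.le_of_succ_le h2⟩
          · rintro ⟨h1, h2⟩
            refine ⟨h1, ?_⟩
            rcases Nat.eq_or_lt_of_le h2 with h3 | h3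
            · exfalso
              apply hkA
              have : i = ⟨k, hklt⟩ := Fin.ext h3.symm
              rwa [← this]
            · exact h3

lemma sparse_aux : ∀ u v x y : Fin 14, (u ≠ v ∧ u.val / 2 = v.val / 2) →
    (x ≠ y ∧ x.val / 2 = y.val / 2) → s(u, v) ≠ s(x, y) →
    ¬ (G.Adj u x ∧ G.Adj u y) ∧ ¬ (G.Adj u x ∧ G.Adj v x) ∧ ¬ (G.Adj u x ∧ G.Adj v y) ∧
    ¬ (G.Adj u y ∧ G.Adj v x) ∧ ¬ (G.Adj u y ∧ G.Adj v y) ∧ ¬ (G.Adj v x ∧ G.Adj v y) := by
  decide +kernel

lemma triangle_aux : ∀ a b c : Fin 14, ¬ (G.Adj a b ∧ G.Adj a c ∧ G.Adj b c) := by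
  decide +kernel

lemma matching_aux : ∀ v : Fin 14, ∃ w : Fin 14, (v ≠ w ∧ v.val / 2 = w.val / 2) ∧
    ∀ w' : Fin 14, (v ≠ w' ∧ v.val / 2 = w'.val / 2) → w' = w := by
  decide +kernel

/-- There is a triangle-free graph on 14 vertices with a sparsely joined perfect matching such
that for every set `A` of 7 vertices some 4-cycle is not caught by `A`. -/
theorem result : ∃ (G : SimpleGraph (Fin 14)) (M : G.Subgraph),
    G.CliqueFree 3 ∧ M.IsPerfectMatching ∧ SparselyJoined G M ∧
      ∀ A : Finset (Fin 14), A.card = 7 →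
        ∃ v₁ v₂ v₃ v₄, IsFourCycle G v₁ v₂ v₃ v₄ ∧ ¬ Caught A v₁ v₂ v₃ v₄ := by
  refine ⟨G, M, ?_, ?_, ?_, ?_⟩
  · intro s hs
    rw [SimpleGraph.is3Clique_iff] at hs
    obtain ⟨a, b, c, hab, hac, hbc, -⟩ := hs
    exact triangle_aux a b c ⟨hab, hac, hbc⟩
  · constructor
    · intro v _
      obtain ⟨w, hw, hw'⟩ := matching_aux v
      exact ⟨w, hw, fun w' h => hw' w' h⟩
    · intro v
      exact Set.mem_univ v
  · intro u v x y huv hxy hne
    have h := sparse_aux u v x y huv hxy hne
    rw [Set.encard_le_one_iff]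
    rintro p q ⟨hp, hp'⟩ ⟨hq, hq'⟩
    obtain ⟨h1, h2, h3, h4, h5, h6⟩ := h
    rcases hp' with rfl | rfl | rfl | rfl <;> rcases hq' with rfl | rfl | rfl | rfl <;>
      simp only [SimpleGraph.mem_edgeSet] at hp hq <;> first | rfl | (exfalso; tauto)
  · intro A hA
    refine search_sound A 14 0 0 le_rfl ?_ ?_ ?_ search_true hA
    · intro i hi
      exact absurd i.2 (not_lt.2 hi)
    · intro i _
      simp
    · symm
      rw [Finset.card_eq_zero, Finset.filter_eq_empty_iff]
      intro i _ hi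
      exact absurd i.2 (not_lt.2 hi)

end Pool.Agent.Results.MP_42b70f_co.FourteenVertices
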